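import Pool.Agent.W809.DN.Stms

set_option autoImplicit false

open Finset

namespace Pool.Agent.W303.DN

open Pool.Agent.W809.DN

/-- the integer `r^{j2} Z` -/
theorem Z_eq (r : ℕ) (hr : 2 ≤ r) (j2 : ℕ) (W : Finset ℕ) (h : ∀ s ∈ W, s < j2) :
    Z r W = ((r : ℝ)⁻¹) ^ j2 * ((∑ s ∈ W, r ^ (j2 - 1 - s) : ℕ) : ℝ) := by
  unfold Z
  push_cast
  rw [Finset.mul_sum]
  refine Finset.sum_congr rfl fun s hs => ?_
  have hs' := h s hs
  have hr0 : (r : ℝ) ≠ 0 := by positivity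
  obtain ⟨k, hk⟩ : ∃ k, j2 = s + 1 + k := ⟨j2 - (s + 1), by omega⟩
  have e : j2 - 1 - s = k := by omega
  rw [e, hk, pow_add _ (s + 1) k, mul_assoc, ← mul_pow, inv_mul_cancel₀ hr0, one_pow, mul_one]

theorem N_inj (r : ℕ) (hr : 2 ≤ r) (j2 : ℕ) (W1 W2 : Finset ℕ) (h1 : ∀ s ∈ W1, s < j2)
    (h2 : ∀ s ∈ W2, s < j2)
    (h : ∑ s ∈ W1, r ^ (j2 - 1 - s) = ∑ s ∈ W2, r ^ (j2 - 1 - s)) : W1 = W2 := by
  classical
  have key : ∀ W : Finset ℕ, (∀ s ∈ W, s < j2) →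
      ∑ s ∈ W, r ^ (j2 - 1 - s) = ∑ i ∈ W.image (fun s => j2 - 1 - s), r ^ i := by
    intro W hW
    rw [Finset.sum_image]
    intro x hx y hy hxy
    have := hW x hx
    have := hW y hy
    have hxy' : j2 - 1 - x = j2 - 1 - y := hxy
    omega
  rw [key W1 h1, key W2 h2] at h
  have h3 := Finset.geomSum_injective hr h
  ext s
  constructor
  · intro hs
    have : j2 - 1 - s ∈ W2.image (fun s => j2 - 1 - s) := by
      rw [← h3]
      exact Finset.mem_image_of_mem _ hs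
    obtain ⟨t, ht, e⟩ := Finset.mem_image.1 this
    have e' : j2 - 1 - t = j2 - 1 - s := e
    have := h2 t ht
    have := h1 s hs
    have : t = s := by omega
    rwa [← this]
  · intro hs
    have : j2 - 1 - s ∈ W1.image (fun s => j2 - 1 - s) := by
      rw [h3]
      exact Finset.mem_image_of_mem _ hs
    obtain ⟨t, ht, e⟩ := Finset.mem_image.1 this
    have e' : j2 - 1 - t = j2 - 1 - s := e
    have := h1 t ht
    have := h2 s hs
    have : t = s := by omega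
    rwa [← this]

theorem Z_sep (r : ℕ) (hr : 2 ≤ r) (j2 : ℕ) (W1 W2 : Finset ℕ) (h1 : ∀ s ∈ W1, s < j2)
    (h2 : ∀ s ∈ W2, s < j2) (hne : W1 ≠ W2) : ((r : ℝ)⁻¹) ^ j2 ≤ |Z r W1 - Z r W2| := by
  rw [Z_eq r hr j2 W1 h1, Z_eq r hr j2 W2 h2, ← mul_sub, abs_mul,
    abs_of_nonneg (by positivity : (0 : ℝ) ≤ ((r : ℝ)⁻¹) ^ j2)]
  have hN : (∑ s ∈ W1, r ^ (j2 - 1 - s) : ℕ) ≠ ∑ s ∈ W2, r ^ (j2 - 1 - s) :=
    fun h => hne (N_inj r hr j2 W1 W2 h1 h2 h)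
  have h3 : (1 : ℝ) ≤ |((∑ s ∈ W1, r ^ (j2 - 1 - s) : ℕ) : ℝ) -
      ((∑ s ∈ W2, r ^ (j2 - 1 - s) : ℕ) : ℝ)| := by
    have h4 : ((∑ s ∈ W1, r ^ (j2 - 1 - s) : ℕ) : ℤ) - ((∑ s ∈ W2, r ^ (j2 - 1 - s) : ℕ) : ℤ) ≠ 0 := by
      intro h
      apply hN
      exact_mod_cast sub_eq_zero.1 h
    have h5 := Int.one_le_abs h4
    exact_mod_cast h5
  calc ((r : ℝ)⁻¹) ^ j2 = ((r : ℝ)⁻¹) ^ j2 * 1 := (mul_one _).symm
    _ ≤ _ := mul_le_mul_of_nonneg_left h3 (by positivity)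

/-- geometric sum bound -/
theorem Z_le (r : ℕ) (hr : 2 ≤ r) (j1 : ℕ) (W : Finset ℕ) (h1 : ∀ s ∈ W, j1 ≤ s) :
    Z r W ≤ ((r : ℝ)⁻¹) ^ j1 := by
  classical
  -- W ⊆ Ico j1 M
  obtain ⟨M, hM⟩ : ∃ M, ∀ s ∈ W, s < M := ⟨W.sup id + 1, fun s hs =>
    Nat.lt_succ_of_le (Finset.le_sup (f := id) hs)⟩
  have hr0 : (0 : ℝ) < (r : ℝ)⁻¹ := by positivity
  have hr2 : (r : ℝ)⁻¹ ≤ 1 / 2 := by
    rw [one_div]
    exact inv_anti₀ (by norm_num) (by exact_mod_cast hr)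
  have hsub : W ⊆ (range (M - j1)).image (fun k => j1 + k) := by
    intro s hs
    rw [Finset.mem_image]
    have := h1 s hs
    have := hM s hs
    exact ⟨s - j1, Finset.mem_range.2 (by omega), by omega⟩
  unfold Z
  refine (Finset.sum_le_sum_of_subset_of_nonneg hsub (fun _ _ _ => by positivity)).trans ?_
  rw [Finset.sum_image (fun x _ y _ hxy => by simpa using hxy)]
  have e : ∀ k, ((r : ℝ)⁻¹) ^ (j1 + k + 1) ≤ ((r : ℝ)⁻¹) ^ j1 * ((1 / 2 : ℝ) ^ (k + 1)) := by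
    intro k
    rw [add_assoc, pow_add]
    exact mul_le_mul_of_nonneg_left (pow_le_pow_left₀ hr0.le hr2 _) (by positivity)
  refine (Finset.sum_le_sum fun k _ => e k).trans ?_
  rw [← Finset.mul_sum]
  have g : ∀ n : ℕ, ∑ k ∈ range n, (1 / 2 : ℝ) ^ (k + 1) = 1 - (1 / 2) ^ n := by
    intro n
    induction n with
    | zero => simp
    | succ n ih => rw [Finset.sum_range_succ, ih]; ring
  rw [g]
  have : (0 : ℝ) ≤ (1 / 2 : ℝ) ^ (M - j1) := by positivity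
  nlinarith [pow_pos hr0 j1]

/-- at most one choice is bad -/
theorem unique_bad (r : ℕ) (hr : 2 ≤ r) (a j1 j2 : ℕ) (κ ρ : ℝ) (h12 : j1 ≤ j2) (h2a : j2 ≤ a)
    (hκ : 0 < κ) (hρ : 0 < ρ) (hρ4 : ρ ≤ 1 / 4) (hs1 : 2 * κ * ((r : ℝ)⁻¹) ^ j1 ≤ 1 / 4)
    (hs2 : ρ ≤ κ / 4 * ((r : ℝ)⁻¹) ^ j2) (U W1 W2 : Finset ℕ)
    (hU : U ⊆ range a \ Ico j1 j2) (hW1 : W1 ⊆ Ico j1 j2) (hW2 : W2 ⊆ Ico j1 j2)
    (hb1 : nd (κ / (1 + Z r (U ∪ W1)) ^ 2) < ρ / 2)
    (hb2 : nd (κ / (1 + Z r (U ∪ W2)) ^ 2) < ρ / 2) : W1 = W2 := by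
  by_contra hne
  have hd1 : Disjoint U W1 := Finset.disjoint_left.2 fun s hs hs1 =>
    (Finset.mem_sdiff.1 (hU hs)).2 (hW1 hs1)
  have hd2 : Disjoint U W2 := Finset.disjoint_left.2 fun s hs hs1 =>
    (Finset.mem_sdiff.1 (hU hs)).2 (hW2 hs1)
  have hsep := Z_sep r hr j2 W1 W2 (fun s hs => (Finset.mem_Ico.1 (hW1 hs)).2)
    (fun s hs => (Finset.mem_Ico.1 (hW2 hs)).2) hne
  have hz1 := Z_le r hr j1 W1 (fun s hs => (Finset.mem_Ico.1 (hW1 hs)).1)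
  have hz2 := Z_le r hr j1 W2 (fun s hs => (Finset.mem_Ico.1 (hW2 hs)).1)
  have hz1' := Z_nonneg r W1
  have hz2' := Z_nonneg r W2
  have hp1 := Z_le r hr 0 (U ∪ W1) (fun s _ => Nat.zero_le s)
  have hq1 := Z_le r hr 0 (U ∪ W2) (fun s _ => Nat.zero_le s)
  rw [pow_zero] at hp1 hq1
  have hp0 := Z_nonneg r (U ∪ W1)
  have hq0 := Z_nonneg r (U ∪ W2)
  have ep : Z r (U ∪ W1) = Z r U + Z r W1 := Z_union hd1
  have eq : Z r (U ∪ W2) = Z r U + Z r W2 := Z_union hd2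
  have hdiff : Z r W1 - Z r W2 = Z r (U ∪ W1) - Z r (U ∪ W2) := by rw [ep, eq]; ring
  rw [hdiff] at hsep
  have hup : |Z r (U ∪ W1) - Z r (U ∪ W2)| ≤ ((r : ℝ)⁻¹) ^ j1 := by
    rw [← hdiff, abs_le]
    constructor <;> linarith
  set p := 1 + Z r (U ∪ W1) with hp
  set q := 1 + Z r (U ∪ W2) with hq
  have hpl : 1 ≤ p := by linarith
  have hpu : p ≤ 2 := by linarith
  have hql : 1 ≤ q := by linarith
  have hqu : q ≤ 2 := by linarith
  have epq : Z r (U ∪ W1) - Z r (U ∪ W2) = p - q := by rw [hp, hq]; ring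
  rw [epq] at hsep hup
  have hp0' : 0 < p := by linarith
  have hq0' : 0 < q := by linarith
  have eD : κ / p ^ 2 - κ / q ^ 2 = κ * (q - p) * ((q + p) / (p ^ 2 * q ^ 2)) := by
    field_simp
    ring
  have hc1 : (1 / 4 : ℝ) ≤ (q + p) / (p ^ 2 * q ^ 2) := by
    rw [le_div_iff₀ (by positivity)]
    have h1 : p ^ 2 * q ^ 2 = (p * q) * (p * q) := by ring
    have h2 : p * q ≤ 2 * q := by nlinarith
    have h3 : p * q ≤ 2 * p := by nlinarith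
    have h4 : p * q ≤ 4 := by nlinarith
    have h5 : 0 < p * q := by positivity
    rw [h1]
    nlinarith
  have hc2 : (q + p) / (p ^ 2 * q ^ 2) ≤ 2 := by
    rw [div_le_iff₀ (by positivity)]
    have h1 : p ^ 2 * q ^ 2 = (p * q) * (p * q) := by ring
    have h2 : q ≤ p * q := by nlinarith
    have h3 : p ≤ p * q := by nlinarith
    have h4 : 1 ≤ p * q := by nlinarith
    rw [h1]
    nlinarith
  have hc0 : 0 ≤ (q + p) / (p ^ 2 * q ^ 2) := by positivity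
  have hDabs : |κ / p ^ 2 - κ / q ^ 2| = κ * |p - q| * ((q + p) / (p ^ 2 * q ^ 2)) := by
    rw [eD, abs_mul, abs_mul, abs_of_pos hκ, abs_sub_comm, abs_of_nonneg hc0]
  have hDl : ρ ≤ |κ / p ^ 2 - κ / q ^ 2| := by
    rw [hDabs]
    calc ρ ≤ κ / 4 * ((r : ℝ)⁻¹) ^ j2 := hs2
      _ ≤ κ / 4 * |p - q| := mul_le_mul_of_nonneg_left hsep (by positivity)
      _ = κ * |p - q| * (1 / 4) := by ring
      _ ≤ _ := mul_le_mul_of_nonneg_left hc1 (by positivity)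
  have hDu : |κ / p ^ 2 - κ / q ^ 2| ≤ 1 / 4 := by
    rw [hDabs]
    calc κ * |p - q| * ((q + p) / (p ^ 2 * q ^ 2)) ≤ κ * |p - q| * 2 :=
          mul_le_mul_of_nonneg_left hc2 (by positivity)
      _ = 2 * κ * |p - q| := by ring
      _ ≤ 2 * κ * ((r : ℝ)⁻¹) ^ j1 := mul_le_mul_of_nonneg_left hup (by positivity)
      _ ≤ 1 / 4 := hs1
  unfold nd at hb1 hb2
  set x := κ / p ^ 2 with hx
  set y := κ / q ^ 2 with hy
  have hxy : round x = round y := by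
    by_contra hn
    have h4 : round x - round y ≠ 0 := sub_ne_zero.2 hn
    have h5 := Int.one_le_abs h4
    have h6 : (1 : ℝ) ≤ |(round x : ℝ) - (round y : ℝ)| := by exact_mod_cast h5
    have h7 : (round x : ℝ) - (round y : ℝ) = -(x - round x) + (x - y) + (y - round y) := by ring
    have h8 : |(round x : ℝ) - (round y : ℝ)| ≤ |x - round x| + |x - y| + |y - round y| := by
      rw [h7]
      refine (abs_add_le _ _).trans ?_
      gcongr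
      refine (abs_add_le _ _).trans ?_
      rw [abs_neg]
    linarith
  have h9 : x - y = (x - round x) - (y - round y) := by rw [hxy]; ring
  have h10 : |x - y| ≤ |x - round x| + |y - round y| := by
    rw [h9]
    exact abs_sub _ _
  linarith

theorem wt_le (δ : ℕ → ℝ) (hδ : Adm δ) (J W : Finset ℕ) (hW : W ⊆ J) :
    wt δ J W ≤ ∏ s ∈ J, (1 - δ s) := by
  unfold wt
  have e : ∏ s ∈ J, (1 - δ s) = (∏ s ∈ W, (1 - δ s)) * ∏ s ∈ J \ W, (1 - δ s) := by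
    rw [mul_comm, Finset.prod_sdiff hW]
  rw [e]
  refine mul_le_mul_of_nonneg_right ?_ (Finset.prod_nonneg fun s _ => by linarith [(hδ s).2])
  exact Finset.prod_le_prod (fun s _ => (hδ s).1) fun s _ => by linarith [(hδ s).2]

theorem ant : S_ANT := by
  classical
  intro r hr δ hδ a j1 j2 κ ρ h12 h2a hκ hρ hρ4 hs1 hs2
  have hsplit : range a = (range a \ Ico j1 j2) ∪ Ico j1 j2 := by
    rw [Finset.sdiff_union_of_subset]
    intro s hs
    rw [Finset.mem_Ico] at hs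
    exact Finset.mem_range.2 (by omega)
  have hdisj : Disjoint (range a \ Ico j1 j2) (Ico j1 j2) := Finset.sdiff_disjoint
  rw [hsplit, EE_union δ _ _ hdisj]
  have hP : 0 ≤ ∏ s ∈ Ico j1 j2, (1 - δ s) :=
    Finset.prod_nonneg fun s _ => by linarith [(hδ s).2]
  rw [← EE_const δ (range a \ Ico j1 j2) (∏ s ∈ Ico j1 j2, (1 - δ s))]
  have hEC : EE δ (range a \ Ico j1 j2) (fun _ => ∏ s ∈ Ico j1 j2, (1 - δ s)) =
      ∏ s ∈ Ico j1 j2, (1 - δ s) := EE_const δ _ _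
  rw [hEC]
  conv_rhs => rw [← hEC]
  refine EE_mono hδ.le_one _ ?_
  intro U hU
  rw [Finset.mem_powerset] at hU
  show EE δ (Ico j1 j2) (fun W => if nd (κ / (1 + Z r (U ∪ W)) ^ 2) < ρ / 2 then (1 : ℝ) else 0) ≤
    ∏ s ∈ Ico j1 j2, (1 - δ s)
  by_cases hex : ∃ W ⊆ Ico j1 j2, nd (κ / (1 + Z r (U ∪ W)) ^ 2) < ρ / 2
  · obtain ⟨W0, hW0, hb0⟩ := hex
    unfold EE
    rw [Finset.sum_eq_single W0]
    · beta_reduce
      rw [if_pos hb0, smul_eq_mul, mul_one]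
      exact wt_le δ hδ _ _ hW0
    · intro W hW hne
      rw [Finset.mem_powerset] at hW
      beta_reduce
      rw [if_neg, smul_zero]
      intro hb
      exact hne (unique_bad r hr a j1 j2 κ ρ h12 h2a hκ hρ hρ4 hs1 hs2 U W W0 hU hW hW0 hb hb0)
    · intro h
      exact absurd (Finset.mem_powerset.2 hW0) h
  · push Not at hex
    unfold EE
    rw [Finset.sum_eq_zero]
    · exact hP
    · intro W hW
      rw [Finset.mem_powerset] at hW
      beta_reduce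
      rw [if_neg (not_lt.2 (hex W hW)), smul_zero]

end Pool.Agent.W303.DN
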